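import Pool.Agent.H74.TQ.Stmts

/-!
# TQ, module BLOCK: if many hash functions are good then few blocks have no good hash function
-/

set_option autoImplicit false

namespace Pool.TQ

open TMLib Polynomial

private lemma block_cut (g l : ℕ) (x : List Bool) :
    cut (g + 1) l x = x.take l :: cut g l (x.drop l) := by
  unfold cut
  rw [List.range_succ_eq_map, List.map_cons, List.map_map]
  congr 1
  · simp
  · apply List.map_congr_left
    intro j _
    simp only [Function.comp_apply, List.drop_drop]
    congr 2
    rw [Nat.succ_eq_add_one, Nat.add_mul, Nat.one_mul, Nat.add_comm]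

private lemma block_card (H : ℕ) (T : Finset (List Bool)) (N : ℕ)
    (hN : ∀ F : Finset (List Bool), (∀ h ∈ F, h.length = H ∧ h ∉ T) → F.card ≤ N) (g : ℕ) :
    ∀ F : Finset (List Bool), (∀ x ∈ F, x.length = g * H ∧ ∀ h ∈ cut g H x, h ∉ T) →
      F.card ≤ N ^ g := by
  classical
  induction g with
  | zero =>
    intro F hF
    rw [pow_zero]
    refine Finset.card_le_one.2 fun x hx y hy => ?_
    have h1 := (hF x hx).1
    have h2 := (hF y hy).1
    rw [Nat.zero_mul, List.length_eq_zero_iff] at h1 h2
    rw [h1, h2]
  | succ g ih =>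
    intro F hF
    have h4 : F ⊆ (((F.image fun x => x.take H) ×ˢ (F.image fun x => x.drop H)).image
        fun p : List Bool × List Bool => p.1 ++ p.2) := by
      intro x hx
      rw [Finset.mem_image]
      exact ⟨(x.take H, x.drop H), Finset.mem_product.2
        ⟨Finset.mem_image_of_mem _ hx, Finset.mem_image_of_mem _ hx⟩, List.take_append_drop _ _⟩
    refine (Finset.card_le_card h4).trans (Finset.card_image_le.trans ?_)
    rw [Finset.card_product, pow_succ, Nat.mul_comm]
    refine Nat.mul_le_mul (ih _ ?_) (hN _ ?_)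
    · intro y hy
      rw [Finset.mem_image] at hy
      obtain ⟨x, hx, rfl⟩ := hy
      obtain ⟨h5, h6⟩ := hF x hx
      rw [block_cut] at h6
      refine ⟨?_, fun h hh => h6 h (List.mem_cons_of_mem _ hh)⟩
      rw [List.length_drop, h5, Nat.add_mul, Nat.one_mul]; omega
    · intro y hy
      rw [Finset.mem_image] at hy
      obtain ⟨x, hx, rfl⟩ := hy
      obtain ⟨h5, h6⟩ := hF x hx
      rw [block_cut] at h6
      refine ⟨?_, h6 _ List.mem_cons_self⟩
      rw [List.length_take, h5, Nat.add_mul, Nat.one_mul]; omega

theorem block : S_BLOCK := by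
  intro a g T hT
  have h1 := Finset.card_filter_add_card_filter_not (s := bits (hbits a)) (fun h => h ∈ T)
  rw [card_bits] at h1
  have h3 := block_card (hbits a) T ((bits (hbits a)).filter fun h => h ∉ T).card
    (fun F hF => Finset.card_le_card fun h hh => by
      rw [Finset.mem_filter, mem_bits]; exact hF h hh) g
    (F := (bits (g * hbits a)).filter fun x => ∀ h ∈ cut g (hbits a) x, h ∉ T)
    (fun x hx => by simpa only [Finset.mem_filter, mem_bits] using hx)
  have h2 : ((bits (hbits a)).filter fun h => h ∉ T).card * 16 ≤ 15 * 2 ^ hbits a := by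
    convert_to _ ≤ _
    have : (Finset.filter (fun h => h ∈ T) (bits (hbits a))).card = _ := rfl
    omega
  calc _ ≤ ((bits (hbits a)).filter fun h => h ∉ T).card ^ g * 16 ^ g :=
        Nat.mul_le_mul_right _ (by convert h3)
    _ = (((bits (hbits a)).filter fun h => h ∉ T).card * 16) ^ g := by rw [mul_pow]
    _ ≤ (15 * 2 ^ hbits a) ^ g := Nat.pow_le_pow_left h2 g
    _ = 15 ^ g * 2 ^ (g * hbits a) := by rw [mul_pow, ← pow_mul, Nat.mul_comm (hbits a) g]

end Pool.TQ
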