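import Pool.Agent.H74.TQ.Stmts

/-!
# TQ, module CLEN: lengths of the outputs of `cstar`
-/

set_option autoImplicit false

namespace Pool.TQ

open TMLib Polynomial

private lemma clen_cut (s l : ℕ) (x : List Bool) (h : x.length = s * l) :
    ∀ u ∈ cut s l x, u.length = l := by
  intro u hu
  unfold cut at hu
  rw [List.mem_map] at hu
  obtain ⟨j, hj, rfl⟩ := hu
  rw [List.mem_range] at hj
  rw [List.length_take, List.length_drop, h]
  have : (j + 1) * l ≤ s * l := Nat.mul_le_mul_right l hj
  rw [Nat.add_mul, Nat.one_mul] at this
  omega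

private lemma clen_flat {α β : Type} (L : List α) (g : α → List β) (c : ℕ)
    (h : ∀ u ∈ L, (g u).length = c) : (L.flatMap g).length = L.length * c := by
  induction L with
  | nil => simp
  | cons a L ih =>
    rw [List.flatMap_cons, List.length_append, h a (by simp),
      ih fun u hu => h u (List.mem_cons_of_mem _ hu), List.length_cons, Nat.add_mul, Nat.one_mul,
      Nat.add_comm]

theorem clen : S_CLEN := by
  intro S P n x hx
  unfold cstar
  simp only
  have hK : P.K n = P.p0 n + P.ell n + P.s n * P.ell n := rfl
  have h0 : (x.drop (P.p0 n + P.ell n)).length = P.s n * P.ell n := by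
    rw [List.length_drop, hx, hK]; omega
  have hy : ((x.drop (P.p0 n)).take (P.ell n)).length = P.ell n := by
    rw [List.length_take, List.length_drop, hx, hK]; omega
  rw [clen_flat _ _ (P.ell n + 1)]
  · have h1 : (cut (P.s n) (P.ell n) (x.drop (P.p0 n + P.ell n))).length = P.s n := by
      simp [cut]
    rw [h1, hK, Nat.mul_add, Nat.mul_one]
    have h2 := P.hs n
    have h3 : P.ell n = P.g n * hbits (P.a n) := rfl
    omega
  · intro u hu
    have h1 := clen_cut _ _ _ h0 u hu
    split_ifs
    · simp [h1]
    · simp [xorl, h1, hy]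

end Pool.TQ
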