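import Pool.Agent.H74.TQ.Stmts

/-!
# TQ, module KEY: basic properties of certificates and keys
-/

set_option autoImplicit false

namespace Pool.TQ

open TMLib Polynomial

private lemma key_b {α : Type} [Enc α] (c : Ctx) {f : α → Form × Form} (hf : PTime f) :
    NPp (fun x => c.b (f x) = false) := by
  have h1 : PTime (fun x => decide (c.b (f x) = false)) :=
    (PTime.not (c.pb.comp hf)).congr fun x => by cases c.b (f x) <;> rfl
  exact NPp.of_ptime h1

private lemma key_G {α : Type} [Enc α] (c : Ctx) {f : α → Form × Form} (hf : PTime f) :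
    NPp (fun x => Sat (c.G (f x))) := npp_sat' (c.pG.comp hf)

theorem key : S_KEY := by
  intro c
  refine ⟨?_, ?_, ?_, ?_⟩
  · refine NPp.exists_le (R := fun (p : ℕ × Form) (φ : Form) =>
      Sat φ ∧ c.b (φ, p.2) = false ∧ Sat (c.G (φ, p.2))) ?_ (q := fun p => p.1) (by fun_prop)
    refine (npp_sat' (by fun_prop)).and ((key_b c ?_).and (key_G c ?_)) <;> fun_prop
  · rintro m F ⟨φ, -, -, h2, h3⟩
    exact ((c.specF φ F h2).2 h3).2
  · refine (key_b c (f := fun p : Form × Form => (p.2, p.1)) ?_).or
      (key_G c (f := fun p : Form × Form => (p.2, p.1)) ?_) <;> fun_prop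
  · rintro m F ⟨h1, h2⟩ φ hφ
    unfold Ctx.PS
    constructor
    · intro h3
      cases hb : c.b (φ, F) with
      | false => exact Or.inl rfl
      | true =>
        right
        by_contra h4
        exact h3 ((c.specT φ F hb).2 h4).1
    · intro h3 h4
      cases hb : c.b (φ, F) with
      | false => exact h2 ⟨φ, hφ, h4, hb, (c.specF φ F hb).1 ⟨h4, h1⟩⟩
      | true =>
        rcases h3 with h3 | h3
        · rw [hb] at h3; cases h3
        · exact (c.specT φ F hb).1 ⟨h4, h1⟩ h3

end Pool.TQ
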