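import Pool.Agent.H74.TQ.Stmts

/-!
# TQ, module LEARN: the learning procedure works (Lemma D)
-/

set_option autoImplicit false

namespace Pool.TQ

open TMLib Polynomial

open Classical in
theorem learn_thm45 : S_LEARN := by
  intro hhalf hsh hcompr S P cex hcex n H hH hgood hran φ hφ hs
  by_contra hno
  push Not at hno
  -- the stages
  set st : ℕ → List Form := fun i => (lstep S P cex n H)^[i] [] with hst
  have hsucc : ∀ i, st (i + 1) = lstep S P cex n H (st i) := by
    intro i
    simp only [hst]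
    rw [Function.iterate_succ_apply']
  have hfin : learn S P cex (n, H) = samples S P n H (st (P.a n + 1)) := rfl
  rw [hfin] at hno
  -- `none` at one stage is `none` at all later stages
  have hlate : ∀ i, cex (n, samples S P n H (st i)) = none →
      ∀ k, st (i + k) = st i := by
    intro i hi k
    induction k with
    | zero => rfl
    | succ k ih =>
      rw [← Nat.add_assoc, hsucc, ih]
      unfold lstep
      rw [hi]; simp
  have hsome : ∀ i, i ≤ P.a n + 1 → ∃ ψ, cex (n, samples S P n H (st i)) = some ψ := by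
    intro i hi
    cases h : cex (n, samples S P n H (st i)) with
    | some ψ => exact ⟨ψ, rfl⟩
    | none =>
      exfalso
      obtain ⟨k, hk⟩ := Nat.exists_eq_add_of_le hi
      have h1 := hlate i h k
      rw [← hk] at h1
      obtain ⟨κ, hκ, hκ2⟩ := hcex.2 n _ h φ hφ hs
      rw [← h1] at hκ
      exact hno κ hκ hκ2
  have hlen : ∀ i, i ≤ P.a n + 1 → (st i).length = i ∧
      ∀ ψ ∈ st i, sz ψ ≤ n ∧ Sat ψ := by
    intro i
    induction i with
    | zero => intro _; exact ⟨rfl, fun ψ h => by simp [hst] at h⟩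
    | succ i ih =>
      intro hi
      obtain ⟨h1, h2⟩ := ih (by omega)
      obtain ⟨ψ, hψ⟩ := hsome i (by omega)
      have h3 := hcex.1 n _ ψ hψ
      rw [hsucc]
      unfold lstep
      rw [hψ]
      simp only [Option.toList_some, List.length_append, List.length_singleton, h1, true_and]
      intro χ hχ
      rw [List.mem_append, List.mem_singleton] at hχ
      rcases hχ with hχ | rfl
      · exact h2 χ hχ
      · exact ⟨h3.1, h3.2.1⟩
  -- the number of living keys halves
  set V : ℕ → ℕ := fun i => ((bits (P.a n)).filter fun κ => Alive S (P.a n) (st i) κ).card with hV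
  have hdrop : ∀ i, i < P.a n + 1 → 2 * V (i + 1) ≤ V i := by
    intro i hi
    obtain ⟨ψ, hψ⟩ := hsome i hi.le
    have h3 := hcex.1 n _ ψ hψ
    have h4 : st (i + 1) = st i ++ [ψ] := by
      rw [hsucc]; unfold lstep; rw [hψ]; rfl
    by_contra h5
    push Not at h5
    simp only [hV, h4] at h5
    have h6 := hhalf S P n (st i) ψ h5
    obtain ⟨x, hx, hx2⟩ := hcompr hsh S P n H (st i) ψ hH (by rw [(hlen i hi.le).1]; exact hi.le)
      (fun χ hχ => ((hlen i hi.le).2 χ hχ).1) h3.1 h3.2.2 h6
    exact hran x hx hx2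
  have hpow : ∀ i, i ≤ P.a n + 1 → 2 ^ i * V i ≤ V 0 := by
    intro i
    induction i with
    | zero => intro _; simp
    | succ i ih =>
      intro hi
      have h1 := ih (by omega)
      have h2 := hdrop i (by omega)
      calc 2 ^ (i + 1) * V (i + 1) = 2 ^ i * (2 * V (i + 1)) := by ring
        _ ≤ 2 ^ i * V i := Nat.mul_le_mul_left _ h2
        _ ≤ V 0 := h1
  have h0 : V 0 ≤ 2 ^ P.a n := by
    simp only [hV]
    exact (Finset.card_filter_le _ _).trans (card_bits _).le
  obtain ⟨κ, hκ, hκ2⟩ := hgood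
  have h1 : 1 ≤ V (P.a n + 1) := by
    simp only [hV]
    refine Finset.card_pos.2 ⟨κ, ?_⟩
    rw [Finset.mem_filter, mem_bits]
    exact ⟨hκ, hκ, fun ψ hψ => hκ2 ψ ((hlen _ le_rfl).2 ψ hψ).1 ((hlen _ le_rfl).2 ψ hψ).2⟩
  have h2 := hpow (P.a n + 1) le_rfl
  have h3 : 2 ^ (P.a n + 1) * 1 ≤ 2 ^ (P.a n + 1) * V (P.a n + 1) := Nat.mul_le_mul_left _ h1
  have h4 : 2 ^ (P.a n) < 2 ^ (P.a n + 1) := by
    apply Nat.pow_lt_pow_right <;> omega
  omega

end Pool.TQ
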