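import Pool.Agent.H74.TQ.StmtsF
import Pool.Agent.TM.Sim

/-!
# Two queries: module LOW
-/

set_option autoImplicit false

namespace Pool.TQ

open TMLib Polynomial N68a2faeb N487b59b3 Pool.TwoQueries

namespace LOW

/-- decode a pair of bit strings -/
private def dec2 (z : List Bool) : List Bool × List Bool :=
  ((chunks 6 3 z).1, (chunks 3 1 (chunks 6 3 z).2.tail).1)

private lemma dec2_enc (x w : List Bool) : dec2 (bitEncode (x, w)) = (x, w) := by
  unfold dec2
  rw [chunks_pair]
  simp [chunks_bits]

private lemma ptime_dec2 : PTime dec2 := by
  unfold dec2
  fun_prop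

/-- the matrix -/
private def mat (q : List Bool → List Bool) (A : Bool → DecisionProblem)
    (V : List Bool → List Bool → Bool) (x w v : List Bool) : Bool :=
  bif w.headD false then
    (decide (w.tail.length ≤ (q x).length) && V (q x) w.tail) && A true x
  else !(decide (v.length ≤ (q x).length) && V (q x) v) && A false x

private lemma ptime_mat {q : List Bool → List Bool} {A : Bool → DecisionProblem}
    {V : List Bool → List Bool → Bool} (hq : PTime q) (hA : ∀ a, PTime (fun x : List Bool => A a x))
    (hV : PTime fun p : List Bool × List Bool => V p.1 p.2) :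
    PTime (fun p : (List Bool × List Bool) × List Bool => mat q A V p.1.1 p.1.2 p.2) := by
  have h1 : PTime (fun p : (List Bool × List Bool) × List Bool => p.1.2.headD false) :=
    (PTime.getD (PTime.head? (PTime.snd (PTime.fst PTime.id))) (PTime.const false)).congr
      fun s => by cases s.1.2 <;> rfl
  have h2 : PTime (fun p : (List Bool × List Bool) × List Bool => q p.1.1) :=
    hq.comp (by fun_prop)
  have h3 : ∀ a, PTime (fun p : (List Bool × List Bool) × List Bool => A a p.1.1) := fun a =>
    PTime.comp (g := fun x : List Bool => A a x) (hA a) (by fun_prop)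
  have h4 : PTime (fun p : (List Bool × List Bool) × List Bool => V (q p.1.1) p.1.2.tail) :=
    hV.comp (f := fun p : (List Bool × List Bool) × List Bool => (q p.1.1, p.1.2.tail))
      (PTime.pair h2 (by fun_prop))
  have h5 : PTime (fun p : (List Bool × List Bool) × List Bool => V (q p.1.1) p.2) :=
    hV.comp (f := fun p : (List Bool × List Bool) × List Bool => (q p.1.1, p.2))
      (PTime.pair h2 (by fun_prop))
  have h3t := h3 true
  have h3f := h3 false
  unfold mat
  refine PTime.cond h1 ?_ ?_
  · fun_prop
  · fun_prop

end LOW

open LOW in
theorem low : S_LOW := by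
  classical
  intro hPT hSAT L hL
  obtain ⟨q, A, hq, hA, hL⟩ := hL
  obtain ⟨V, hV, hVs⟩ := hSAT
  have hq' : PTime q := ptime_of_isPolyTime hq
  have hA' : ∀ a, PTime (fun x : List Bool => A a x) := fun a => (hPT _).1 (hA a)
  obtain ⟨B, hB⟩ := hq'.exists_size_le
  -- bound on the length of the query
  have hlen : ∀ x : List Bool, (q x).length ≤ (B.comp (1 + 4 * X)).eval x.length := by
    intro x
    have h1 := length_lt_sz (q x)
    have h2 := hB x
    have h3 := eval_mono B (sz_bits_le x)
    have e4 : eval x.length (4 : ℕ[X]) = 4 := by simp
    simp only [eval_comp, eval_add, eval_mul, eval_one, eval_X, e4]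
    omega
  set pp : ℕ[X] := B.comp (1 + 4 * X) with hpp
  let M : List Bool → Bool := fun z => mat q A V (dec2 (dec2 z).1).1 (dec2 (dec2 z).1).2 (dec2 z).2
  have hM : PTime M := by
    have h1 := ptime_mat hq' hA' hV
    have h2 : PTime (fun z : List Bool => (((dec2 (dec2 z).1).1, (dec2 (dec2 z).1).2), (dec2 z).2)) := by
      have h3 : PTime (fun z : List Bool => dec2 (dec2 z).1) :=
        ptime_dec2.comp (PTime.fst ptime_dec2)
      exact PTime.pair (PTime.pair (PTime.fst h3) (PTime.snd h3)) (PTime.snd ptime_dec2)
    exact h1.comp h2
  have hMe : ∀ x w v : List Bool, M (bitEncode (bitEncode (x, w), v)) = mat q A V x w v := by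
    intro x w v
    simp only [M, dec2_enc]
  refine ⟨2, 1 + pp, fun z => decide (∃ v : List Bool, v.length ≤ pp.eval z.length ∧
    M (bitEncode (z, v)) = false), ⟨pp, M, (hPT M).2 hM, fun z => ?_⟩, fun x => ?_⟩
  · simp
  · have hz : ∀ w : List Bool, pp.eval x.length ≤ pp.eval (bitEncode (x, w)).length := by
      intro w
      refine eval_mono pp ?_
      rw [bitEncode_pair, List.length_append, length_delimit, length_bitEncode_bits]
      omega
    simp only [decide_eq_false_iff_not, not_exists, not_and, Bool.not_eq_false, hMe]
    rw [hL x]
    by_cases hs : SAT (q x) = true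
    · rw [hs]
      obtain ⟨w, hw, hVw⟩ := (hVs _).1 hs
      constructor
      · intro ha
        refine ⟨true :: w, ?_, fun v _ => ?_⟩
        · have := hlen x
          simp only [List.length_cons, eval_add, eval_one]
          omega
        · simp [mat, hw, hVw, ha]
      · rintro ⟨w', -, hw'⟩
        by_cases h : w'.headD false = true
        · have h1 := hw' [] (by simp)
          simp only [mat, h, cond_true, Bool.and_eq_true] at h1
          exact h1.2
        · exfalso
          have h2 := hw' w ((hw.trans (hlen x)).trans (hz w'))
          simp only [Bool.not_eq_true] at h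
          simp only [mat, h, cond_false, hw, hVw, decide_true, Bool.and_self, Bool.not_true,
            Bool.false_and] at h2
          exact absurd h2 (by simp)
    · simp only [Bool.not_eq_true] at hs
      rw [hs]
      have hno : ∀ v : List Bool, v.length ≤ (q x).length → V (q x) v = false := by
        intro v hv
        by_contra hc
        simp only [Bool.not_eq_false] at hc
        have := (hVs (q x)).2 ⟨v, hv, hc⟩
        rw [hs] at this
        exact absurd this (by simp)
      constructor
      · intro ha
        refine ⟨[], by simp, fun v _ => ?_⟩
        by_cases hv : v.length ≤ (q x).length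
        · simp [mat, hno v hv, ha]
        · simp [mat, hv, ha]
      · rintro ⟨w', -, hw'⟩
        by_cases h : w'.headD false = true
        · exfalso
          have h1 := hw' [] (by simp)
          simp only [mat, h, cond_true, Bool.and_eq_true, decide_eq_true_eq] at h1
          have := hno _ h1.1.1
          rw [h1.1.2] at this
          exact absurd this (by simp)
        · have h1 := hw' [] (by simp)
          simp only [Bool.not_eq_true] at h
          simp only [mat, h, cond_false, Bool.and_eq_true] at h1
          exact h1.2

end Pool.TQ
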