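import Pool.Agent.H74.TQ.StmtsF

/-!
# Two queries: module ONE
-/

set_option autoImplicit false

namespace Pool.TQ

open TMLib Polynomial N68a2faeb N487b59b3 Pool.TwoQueries

theorem one : S_ONE := by
  intro hPT hHard L hL
  obtain ⟨q, t, hq, ht, hL⟩ := hL
  obtain ⟨g, hg, hgs⟩ := hHard
  refine ⟨fun x => g (q x), fun a x => t (x, a), ?_, fun a => ?_, fun x => ?_⟩
  · exact isPolyTime_of_ptime (hg.comp hq)
  · rw [hPT]
    exact ht.comp (f := fun x : List Bool => (x, a)) (by fun_prop)
  · have h1 : SAT (g (q x)) = satb (q x) := by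
      rw [Bool.eq_iff_iff, satb_iff]
      exact (hgs (q x)).symm
    rw [h1, Bool.eq_iff_iff]
    exact hL x

end Pool.TQ
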