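import Pool.Agent.H74.TQ.StmtsF
import Pool.Agent.TM.Sim
import Pool.Agent.TM.BitEnc

/-!
# Two queries: module PT
-/

set_option autoImplicit false

namespace Pool.TQ

open TMLib Polynomial N68a2faeb N487b59b3 Pool.TwoQueries

theorem pt : S_PT := by
  intro L
  constructor
  · intro h
    obtain ⟨F, hF, hF'⟩ := ptime_of_tm2 h
    have h1 : PTime (fun x : List Bool => (F (bitEncode x)).headD false) := by
      have h2 : PTime (fun x : List Bool => F (bitEncode x)) := by
        refine PTime.comp (g := F) hF ?_
        fun_prop
      exact (PTime.getD (PTime.head? h2) (PTime.const false)).congr fun s => by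
        cases F (bitEncode s) <;> rfl
    refine h1.congr fun x => ?_
    have h2 : F (bitEncode x) = [L x] := hF' x
    rw [h2]
    rfl
  · intro h
    refine tm2_of_ptime (f := fun z => [L (chunks 3 1 z).1]) ?_ fun a => ?_
    · have h1 : PTime (fun z : List Bool => L (chunks 3 1 z).1) :=
        PTime.comp (g := fun x : List Bool => L x) h (by fun_prop)
      fun_prop
    · change [L a] = _
      rw [show (N487b59b3.toEncoding (α := List Bool)).encode a = bitEncode a from rfl,
        chunks_bits]

end Pool.TQ
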