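import Pool.Agent.H74.TQ.Stmts

/-!
# TQ, module WBP: facts on `WrongBefore`
-/

set_option autoImplicit false

namespace Pool.TQ

open TMLib Polynomial

private lemma wbp_len (f : List Bool → List Bool × List Bool) (k : ℕ)
    (h1 : ∀ x : List Bool, x.length = k → (f x).1.length = k)
    (h2 : ∀ x : List Bool, x.length = k → (f x).2.length = k) (p : List Bool) :
    ∀ e : List Bool, e.length = k → (dec f e p).length = k := by
  induction p with
  | nil => intro e he; exact he
  | cons b p ih =>
    intro e he
    have h3 : dec f e (b :: p) = dec f (bif b then (f e).2 else (f e).1) p := rfl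
    rw [h3]
    apply ih
    cases b
    · exact h1 e he
    · exact h2 e he

private lemma wbp_not (l : List Bool) (h : 1 ≤ l.length) : l ≠ l.map not := by
  cases l with
  | nil => simp at h
  | cons b l =>
    intro h2
    rw [List.map_cons, List.cons.injEq] at h2
    cases b <;> simp at h2

theorem wbp : S_WBP := by
  intro hL f k hk h1 h2
  refine ⟨?_, ?_, ?_⟩
  · rintro e ⟨j, -, hj, -⟩
    rw [hL.zeros] at hj
    cases hj
  · intro e he
    refine ⟨e, he, by simp [ltb], ?_⟩
    unfold target
    exact wbp_not _ (by rw [wbp_len f k h1 h2 e e he]; exact hk)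
  · rintro e e' π hi - hhi hw hd ⟨j, hj, hlt, hne⟩
    rw [hd j hj] at hne
    rcases (hhi j hj).1 hlt with h3 | h3
    · have h4 : j ≠ π := by
        rintro rfl
        rw [hL.irrefl] at h3; cases h3
      rw [if_neg h4] at hne
      exact hw ⟨j, hj, by simpa [ltb] using h3, hne⟩
    · rw [if_pos h3, h3] at hne
      exact hne rfl

end Pool.TQ
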